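import Pool.Agent.H274R3.ETH.Defs

/-!
# Fixed powers as time bounds, relative to an oracle
-/

set_option autoImplicit false

namespace Pool.Agent.H274R3.Pow

open Pool.Agent.NPC Pool.Agent.H620R2.Gauge Pool.Agent.H274R3.ETH

/-- the time bound `c (n + 1) ^ r` -/
def tq (r c n : ℕ) : ℕ := c * (n + 1) ^ r

/-- The verifier `V` works in linear time relative to `A`: on `⟨w, y⟩` it asks at most
`c (|w| + |y| + 1)` questions, all of them of length at most `c (|w| + |y| + 1)`. -/
def IsLin (A : Oracle) (V : List Bool → List Bool) : Prop :=
  ∃ (M : Alg) (c : ℕ), ∀ w y : List Bool,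
    outT M A (pairBits w y) (c * (w.length + y.length + 1)) = some (V (pairBits w y))

/-- Time `O (n ^ r)` is enough relative to `A`: for every verifier `V` which works in linear time,
the question whether `V` accepts `⟨w, y⟩` for some `w` with `|w| = |y|` is decided within
`c (|y| + 1) ^ r` rounds with questions of length at most `c (|y| + 1) ^ r`. -/
def InPow (r : ℕ) (A : Oracle) : Prop :=
  ∀ V : List Bool → List Bool, IsLin A V → ∃ (M : Alg) (c : ℕ), ∀ y : List Bool, ∃ z,
    outT M A y (tq r c y.length) = some z ∧ (z = [true] ↔ Sat V y.length y)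

/-- Nondeterministic time `O (n ^ r)` with advice (depending on the length) is enough relative to
`A` for the instances without solution. -/
def CoPow (r : ℕ) (A : Oracle) : Prop :=
  ∀ V : List Bool → List Bool, IsLin A V → ∃ (M : Alg) (c : ℕ) (h : ℕ → List Bool),
    ∀ y : List Bool, (h y.length).length ≤ tq r c y.length ∧
      (¬ Sat V y.length y ↔ ∃ g : List Bool, g.length ≤ tq r c y.length ∧
        outT M A (pairBits g (inst (h y.length) y.length y)) (tq r c y.length) = some [true])

end Pool.Agent.H274R3.Pow
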