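import Pool.Agent.H274R3.Pow.NonNull

/-!
# Every exponent has its own gauge threshold
-/

set_option autoImplicit false

namespace Pool.Agent.H274R3.Pow

open Pool.Agent.NPC Pool.Agent.H620R2.Gauge Pool.Agent.H622R2 Filter
open Pool.Agent.H274R3.ETH

theorem InPow.co {r : ℕ} {A : Oracle} (hA : InPow r A) : CoPow r A := by
  intro V hV
  obtain ⟨M, c, hM⟩ := hA V hV
  obtain ⟨M1, hM1⟩ := exists_post M
  obtain ⟨M2, hM2⟩ := exists_pre M1 (φ := fun x => (unpair (unpair (unpair x).2).2).2)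
    (Poly.snd (poly_unpair.comp (Poly.snd (poly_unpair.comp (Poly.snd poly_unpair)))))
  refine ⟨M2, c, fun _ => [], fun y => ⟨Nat.zero_le _, ?_⟩⟩
  obtain ⟨z, hz1, hz2⟩ := hM y
  have key : ∀ g : List Bool, outT M2 A (pairBits g (inst [] y.length y)) (tq r c y.length) =
      some (if z = [true] then [false] else [true]) := by
    intro g
    rw [hM2, hM1]
    unfold inst
    simp only [unpair_pairBits]
    rw [hz1]
    rfl
  constructor
  · intro h
    refine ⟨[], Nat.zero_le _, ?_⟩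
    rw [key, if_neg (fun h1 => h (hz2.1 h1))]
  · rintro ⟨g, _, hg⟩ hS
    rw [key, if_pos (hz2.2 hS)] at hg
    simp at hg

theorem threshold {r : ℕ} (hr : 1 ≤ r) (f : ℕ → ℝ) (O : Set Oracle)
    (h1 : {A : Oracle | InPow r A} ⊆ O) (h2 : O ⊆ {A : Oracle | CoPow r A}) :
    Null f O ↔ ∀ ε : ℝ, 0 < ε →
      ∃ᶠ N : ℕ in atTop, f N ≤ 2 ^ (ε * (Real.logb 2 N) ^ (1 / (r : ℝ))) := by
  constructor
  · intro hn
    by_contra hcon
    push Not at hcon
    obtain ⟨ε, hε, hcon⟩ := hcon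
    exact not_null_pow hr hε hcon O (fun A hA => h1 hA) hn
  · intro hf
    exact null_pow hr hf O fun A hA => h2 hA

/-- a gauge between the thresholds for `r` and `r'` -/
noncomputable def fP (r r' : ℕ) (N : ℕ) : ℝ :=
  2 ^ (Real.logb 2 N) ^ ((1 / (r : ℝ) + 1 / (r' : ℝ)) / 2)

theorem tendsto_L : Tendsto (fun N : ℕ => Real.logb 2 (N : ℝ)) atTop atTop :=
  (Real.tendsto_logb_atTop (by norm_num)).comp tendsto_natCast_atTop_atTop

theorem sepP {r r' : ℕ} (hr : 1 ≤ r) (hrr : r < r') :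
    Null (fP r r') {A : Oracle | CoPow r A} ∧ ¬ Null (fP r r') {A : Oracle | InPow r' A} := by
  have hr0 : (0 : ℝ) < r := by exact_mod_cast hr
  have hrr' : (r : ℝ) < r' := by exact_mod_cast hrr
  have hlt : 1 / (r' : ℝ) < 1 / (r : ℝ) := one_div_lt_one_div_of_lt hr0 hrr'
  set β : ℝ := (1 / (r : ℝ) + 1 / (r' : ℝ)) / 2 with hβ
  have hβ1 : β < 1 / (r : ℝ) := by rw [hβ]; linarith
  have hβ2 : 1 / (r' : ℝ) < β := by rw [hβ]; linarith
  constructor
  · refine null_pow hr (fun ε hε => ?_) _ fun _ hA => hA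
    apply Eventually.frequently
    have h1 : Tendsto (fun N : ℕ => (Real.logb 2 (N : ℝ)) ^ (1 / (r : ℝ) - β)) atTop atTop :=
      (tendsto_rpow_atTop (by linarith)).comp tendsto_L
    filter_upwards [h1.eventually (eventually_ge_atTop (1 / ε)),
      tendsto_L.eventually (eventually_gt_atTop 0)] with N h2 h3
    unfold fP
    apply Real.rpow_le_rpow_of_exponent_le (by norm_num)
    have h4 : (Real.logb 2 (N : ℝ)) ^ (1 / (r : ℝ)) =
        (Real.logb 2 (N : ℝ)) ^ (1 / (r : ℝ) - β) * (Real.logb 2 (N : ℝ)) ^ β := by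
      rw [← Real.rpow_add h3]
      congr 1
      ring
    rw [h4, ← mul_assoc]
    have h5 : 1 ≤ ε * (Real.logb 2 (N : ℝ)) ^ (1 / (r : ℝ) - β) := by
      rw [div_le_iff₀ hε] at h2
      linarith
    have h6 : 0 ≤ (Real.logb 2 (N : ℝ)) ^ β := Real.rpow_nonneg h3.le _
    nlinarith
  · refine not_null_pow (r := r') (by omega) (ε := 1) one_pos ?_ _ fun _ hA => hA
    filter_upwards [tendsto_L.eventually (eventually_gt_atTop 1)] with N h1
    unfold fP
    apply Real.rpow_lt_rpow_of_exponent_lt (by norm_num)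
    rw [one_mul]
    exact Real.rpow_lt_rpow_of_exponent_lt h1 hβ2

theorem exists_oracleP {r r' : ℕ} (hr : 1 ≤ r) (hrr : r < r') :
    ∃ A : Oracle, InPow r' A ∧ ¬ CoPow r A := by
  by_contra hcon
  push Not at hcon
  exact (sepP hr hrr).2 ((sepP hr hrr).1.mono fun A hA => hcon A hA)

end Pool.Agent.H274R3.Pow
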