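import Pool.Agent.H274R3.Pow.Null
import Pool.Agent.H274R3.OW.AE

/-!
# The other side
-/

set_option autoImplicit false

namespace Pool.Agent.H274R3.Pow

open Pool.Agent.NPC Pool.Agent.H620R2.Gauge Pool.Agent.H622R2 Filter
open Pool.Agent.H274R3.ETH

theorem exists_ask {φ : List Bool → List Bool} (hφ : Poly φ) : ∃ M : Alg, ∀ (A : Oracle)
    (x : List Bool) (T : ℕ), 2 ≤ T → (φ x).length ≤ T → outT M A x T = some [A (φ x)] := by
  set D : List Bool → List Bool := fun v =>
    if (unpair v).2.isEmpty = true then false :: φ (unpair v).1 else true :: (unpair v).2 with hD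
  have hDp : Poly D := Poly.ite (Poly.decide_bool (Poly.isEmpty (Poly.snd poly_unpair)))
    (Poly.cons (NPC.Poly.const false) (hφ.comp (Poly.fst poly_unpair)))
    (Poly.cons (NPC.Poly.const true) (Poly.snd poly_unpair))
  set M : Alg := ⟨D, polyTime_of_poly_list hDp, 0⟩ with hM
  refine ⟨M, fun A x T hT hl => ?_⟩
  obtain ⟨T', hTT⟩ : ∃ T', T = T' + 2 := ⟨T - 2, by omega⟩
  have e0 : M.D (pairBits x []) = false :: φ x := by
    show D (pairBits x []) = _
    simp only [hD, unpair_pairBits]
    rfl
  have e1 : ∀ b : Bool, M.D (pairBits x [b]) = true :: [b] := by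
    intro b
    show D (pairBits x [b]) = _
    simp only [hD, unpair_pairBits]
    rfl
  have h3 : ∀ m : ℕ, runT M A x T (m + 2) [] = some [A (φ x)] := by
    intro m
    rw [runT, e0]
    simp only [if_pos hl, List.nil_append]
    rw [runT, e1]
  have h4 := h3 T'
  rw [← hTT] at h4
  exact h4

theorem tendsto_log : Tendsto (fun N : ℕ => Nat.log 2 N) atTop atTop := by
  rw [tendsto_atTop]
  intro b
  filter_upwards [eventually_ge_atTop (2 ^ b)] with n hn
  have h1 : n ≠ 0 := by
    have : 0 < 2 ^ b := by positivity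
    omega
  exact (Nat.le_log_iff_pow_le (by norm_num) h1).2 hn

theorem ev_real (r : ℕ) {ε : ℝ} (hε : 0 < ε) :
    ∀ᶠ t : ℝ in atTop, 2 * (t ^ r + 1) ≤ 2 ^ (ε / 2 * t) := by
  have hb : (0 : ℝ) < ε / 2 * Real.log 2 :=
    mul_pos (by positivity) (Real.log_pos (by norm_num))
  have h1 := (isLittleO_pow_exp_pos_mul_atTop (k := r) hb).def
    (show (0 : ℝ) < 1 / 4 by norm_num)
  filter_upwards [h1, eventually_ge_atTop (1 : ℝ)] with t h2 h3
  have h4 : (1 : ℝ) ≤ t ^ r := one_le_pow₀ h3
  rw [Real.norm_of_nonneg (by positivity), Real.norm_of_nonneg (by positivity)] at h2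
  have h5 : Real.exp (ε / 2 * Real.log 2 * t) = 2 ^ (ε / 2 * t) := by
    rw [Real.rpow_def_of_pos (by norm_num)]
    congr 1
    ring
  rw [h5] at h2
  linarith

/-- the question about a solution -/
def VQ (al : ℕ → Alg) (e : ℕ) (A : Oracle) (x : List Bool) : Prop :=
  ∃ w : List Bool, w.length = x.length ∧
    outT (al (Nat.unpair e).1) A (pairBits w x) ((Nat.unpair e).2 * (w.length + x.length + 1)) =
      some [true]

theorem not_null_pow {r : ℕ} (hr : 1 ≤ r) {f : ℕ → ℝ} {ε : ℝ} (hε : 0 < ε)
    (hf : ∀ᶠ N : ℕ in atTop, 2 ^ (ε * (Real.logb 2 N) ^ (1 / (r : ℝ))) < f N)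
    (O : Set Oracle) (hO : ∀ A : Oracle, InPow r A → A ∈ O) : ¬ Null f O := by
  classical
  obtain ⟨al, hal⟩ := OW.exists_alg_enum
  obtain ⟨K0, hK0⟩ := exists_nat_ge ((4 / ε) ^ r)
  have hr0 : (0 : ℝ) < r := by exact_mod_cast hr
  set qb : ℕ → Polynomial ℕ := fun e =>
    Polynomial.C (4 * e + 3 + K0) * (Polynomial.X + 1) ^ r with hqb
  have hqe : ∀ e n, (qb e).eval n = (4 * e + 3 + K0) * (n + 1) ^ r := by
    intro e n; simp [hqb]
  have hpow : ∀ n : ℕ, n + 1 ≤ (n + 1) ^ r := fun n => Nat.le_self_pow (by omega) _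
  have hloc : ∀ e A A' x, (∀ z : List Bool, z.length < (code qb e x).length → A z = A' z) →
      (VQ al e A x ↔ VQ al e A' x) := by
    intro e A A' x h
    unfold VQ
    refine exists_congr fun w => and_congr_right fun hw => ?_
    unfold outT
    rw [runT_congr _ _ _ (A := A') (A' := A) ?_]
    intro q hq
    apply h
    refine lt_of_le_of_lt (hq.trans ?_) (CC.lt_length_code qb e x)
    rw [hqe, hw]
    have h1 : (Nat.unpair e).2 ≤ e := Nat.unpair_right_le e
    have h2 := hpow x.length
    calc (Nat.unpair e).2 * (x.length + x.length + 1) ≤ e * (4 * (x.length + 1)) :=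
          Nat.mul_le_mul h1 (by omega)
      _ = 4 * e * (x.length + 1) := by ring
      _ ≤ (4 * e + 3 + K0) * (x.length + 1) ^ r := Nat.mul_le_mul (by omega) h2
  set Φ : Oracle → Oracle := fun B => CC.Phi qb (VQ al) B with hΦ
  have hΦc : ∀ B e x, Φ B (code qb e x) = true ↔ VQ al e (Φ B) x := fun B e x =>
    CC.Phi_code qb (VQ al) B hloc e x
  set T : Set (List Bool) := {y | ∃ e x, y = code qb e x} with hT
  -- the threshold
  have hexp0 : (0 : ℝ) < 1 / (r : ℝ) := by positivity
  have ht : Tendsto (fun N : ℕ => ((Nat.log 2 N : ℕ) : ℝ) ^ (1 / (r : ℝ))) atTop atTop :=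
    (tendsto_rpow_atTop hexp0).comp (tendsto_natCast_atTop_atTop.comp tendsto_log)
  obtain ⟨N₀, hN₀⟩ := eventually_atTop.1 ((hf.and (ht.eventually (ev_real r hε))).and
    (eventually_ge_atTop 2))
  refine OW.not_null_of_coding f Φ T ?_ N₀ ?_ O ?_
  · intro B y hy
    refine CC.Phi_not qb (VQ al) B y fun e x h => hy ⟨e, x, h⟩
  · intro N hN
    obtain ⟨⟨hfN, htN⟩, hN2⟩ := hN₀ N hN
    set L : ℕ := Nat.log 2 N with hL
    have hN0 : N ≠ 0 := by omega
    set s : ℕ := Nat.findGreatest (fun s => K0 * s ^ r ≤ L) L with hs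
    have hs1 : K0 * s ^ r ≤ L := Nat.findGreatest_spec (P := fun s => K0 * s ^ r ≤ L) (m := 0)
      (Nat.zero_le _) (by rw [Nat.zero_pow (by omega)]; omega)
    choose U hU1 hU2 using OW.exists_short_strings
    have hsub : (Finset.range N).filter (fun k => str k ∈ T) ⊆
        (Finset.range (L + 1) ×ˢ U s).image fun z => idx (code qb z.1 z.2) := by
      intro k hk
      rw [Finset.mem_filter, Finset.mem_range] at hk
      obtain ⟨hkN, e, x, hx⟩ := hk
      have h1 : 2 ^ (code qb e x).length ≤ k + 1 := by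
        have := le_idx (code qb e x)
        rwa [← hx, idx_str, hx] at this
      have h2 : (code qb e x).length ≤ L :=
        (Nat.le_log_iff_pow_le (by norm_num) hN0).2 (by omega)
      have h3 := CC.lt_length_code qb e x
      rw [hqe] at h3
      have h4 : e ≤ (code qb e x).length := by
        unfold code
        simp only [List.length_append, List.length_replicate, List.length_cons]
        omega
      have h5 : K0 * (x.length + 1) ^ r ≤ L := by
        have : K0 * (x.length + 1) ^ r ≤ (4 * e + 3 + K0) * (x.length + 1) ^ r :=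
          Nat.mul_le_mul_right _ (by omega)
        omega
      have h6 : x.length + 1 ≤ L := by
        have h7 := hpow x.length
        have h8 : (x.length + 1) ^ r ≤ (4 * e + 3 + K0) * (x.length + 1) ^ r :=
          Nat.le_mul_of_pos_left _ (by omega)
        omega
      have h7 : x.length + 1 ≤ s := Nat.le_findGreatest (P := fun s => K0 * s ^ r ≤ L) h6 h5
      refine Finset.mem_image.2 ⟨(e, x), Finset.mem_product.2 ⟨Finset.mem_range.2
        (by show e < L + 1; omega), hU2 _ _ (by show x.length ≤ s; omega)⟩, ?_⟩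
      show idx (code qb e x) = k
      rw [← hx, idx_str]
    have hcard : ((Finset.range N).filter (fun k => str k ∈ T)).card ≤ (L + 1) * 2 ^ (s + 1) := by
      refine (Finset.card_le_card hsub).trans (Finset.card_image_le.trans ?_)
      rw [Finset.card_product, Finset.card_range]
      exact Nat.mul_le_mul_left _ (hU1 _)
    set t : ℝ := ((L : ℕ) : ℝ) ^ (1 / (r : ℝ)) with htd
    have ht0 : 0 ≤ t := Real.rpow_nonneg (Nat.cast_nonneg _) _
    have htr : t ^ r = L := by
      rw [htd, ← Real.rpow_natCast, ← Real.rpow_mul (Nat.cast_nonneg _), one_div,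
        inv_mul_cancel₀ hr0.ne', Real.rpow_one]
    have hst : (s : ℝ) ≤ ε / 4 * t := by
      have h1 : (s : ℝ) ^ r ≤ (ε / 4 * t) ^ r := by
        rw [mul_pow, htr]
        have h2 : (K0 : ℝ) * (s : ℝ) ^ r ≤ L := by exact_mod_cast hs1
        have h3 : (4 / ε) ^ r * (s : ℝ) ^ r ≤ L :=
          (mul_le_mul_of_nonneg_right hK0 (by positivity)).trans h2
        have h4 : (ε / 4) ^ r * ((4 / ε) ^ r * (s : ℝ) ^ r) = (s : ℝ) ^ r := by
          rw [← mul_assoc, ← mul_pow]
          have : ε / 4 * (4 / ε) = 1 := by field_simp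
          rw [this, one_pow, one_mul]
        calc (s : ℝ) ^ r = (ε / 4) ^ r * ((4 / ε) ^ r * (s : ℝ) ^ r) := h4.symm
          _ ≤ (ε / 4) ^ r * L := mul_le_mul_of_nonneg_left h3 (by positivity)
      exact le_of_pow_le_pow_left₀ (by omega) (by positivity) h1
    have hLlog : ((L : ℕ) : ℝ) ≤ Real.logb 2 N := by
      have hNr : (0 : ℝ) < N := by exact_mod_cast Nat.pos_of_ne_zero hN0
      rw [Real.le_logb_iff_rpow_le (by norm_num) hNr, Real.rpow_natCast]
      exact_mod_cast Nat.pow_log_le_self 2 hN0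
    rw [htr] at htN
    refine le_trans ?_ hfN.le
    calc (((Finset.range N).filter (fun k => str k ∈ T)).card : ℝ)
        ≤ (((L + 1) * 2 ^ (s + 1) : ℕ) : ℝ) := by exact_mod_cast hcard
      _ = (2 * ((L : ℝ) + 1)) * 2 ^ (s : ℝ) := by
          rw [Real.rpow_natCast]
          push_cast
          ring
      _ ≤ 2 ^ (ε / 2 * t) * 2 ^ (ε / 4 * t) := by
          apply mul_le_mul htN _ (by positivity) (by positivity)
          exact Real.rpow_le_rpow_of_exponent_le (by norm_num) hst
      _ = 2 ^ (3 / 4 * (ε * t)) := by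
          rw [← Real.rpow_add (by norm_num)]
          congr 1
          ring
      _ ≤ 2 ^ (ε * (Real.logb 2 N) ^ (1 / (r : ℝ))) := by
          apply Real.rpow_le_rpow_of_exponent_le (by norm_num)
          have h1 : t ≤ (Real.logb 2 N) ^ (1 / (r : ℝ)) :=
            Real.rpow_le_rpow (Nat.cast_nonneg _) hLlog (by positivity)
          have h2 : ε * t ≤ ε * (Real.logb 2 N) ^ (1 / (r : ℝ)) :=
            mul_le_mul_of_nonneg_left h1 hε.le
          have h3 : 0 ≤ ε * t := mul_nonneg hε.le ht0
          linarith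
  · intro B
    apply hO
    rintro V ⟨M, c, hMc⟩
    obtain ⟨j, hj⟩ := hal M
    set e : ℕ := Nat.pair j c with he
    have he1 : (Nat.unpair e).1 = j := by rw [he, Nat.unpair_pair]
    have he2 : (Nat.unpair e).2 = c := by rw [he, Nat.unpair_pair]
    obtain ⟨M', hM'⟩ := exists_ask (CC.poly_code qb e)
    refine ⟨M', e + (4 * e + 3 + K0) + 5, fun y => ⟨[Φ B (code qb e y)], ?_, ?_⟩⟩
    · have h1 := hpow y.length
      have h2 : tq r (e + (4 * e + 3 + K0) + 5) y.length =
          (4 * e + 3 + K0) * (y.length + 1) ^ r + (e + 5) * (y.length + 1) ^ r := by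
        unfold tq; ring
      have h3 : e + 5 + y.length ≤ (e + 5) * (y.length + 1) ^ r := by nlinarith
      apply hM'
      · rw [h2]
        omega
      · unfold code
        simp only [List.length_append, List.length_replicate, List.length_cons]
        rw [h2, hqe]
        omega
    · rw [List.cons.injEq]
      rw [and_iff_left rfl, hΦc]
      unfold VQ Sat
      rw [he1, he2, hj]
      refine exists_congr fun w => and_congr_right fun _ => ?_
      rw [hMc, Option.some.injEq]

end Pool.Agent.H274R3.Pow
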