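import Pool.Agent.H274R3.Pow.Defs
import Pool.Agent.H274R3.ETH.Null

/-!
# The null side
-/

set_option autoImplicit false

namespace Pool.Agent.H274R3.Pow

open Pool.Agent.NPC Pool.Agent.H620R2.Gauge Pool.Agent.H622R2 Finset H568R2 Filter
open Pool.Agent.H274R3.ETH

/-- the verifier works in linear time -/
theorem isLin_hitV (A : Oracle) : IsLin A (hitV A) := by
  set D : List Bool → List Bool := fun v =>
    if (unpair v).2.length < (unpair (unpair v).1).1.length then
      false :: ((unpair (unpair v).1).2 ++ ((unpair (unpair v).1).1 ++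
        (unpair v).2.map fun _ => true))
    else true :: (if (unpair v).2.all (fun b => b) = true then [true] else [false]) with hD
  have hDp : Poly D := by
    have hv : Poly (fun v : List Bool => (unpair v).1) := Poly.fst poly_unpair
    have ha : Poly (fun v : List Bool => (unpair v).2) := Poly.snd poly_unpair
    have hw : Poly (fun v : List Bool => (unpair (unpair v).1).1) :=
      Poly.fst (poly_unpair.comp hv)
    have hy : Poly (fun v : List Bool => (unpair (unpair v).1).2) :=
      Poly.snd (poly_unpair.comp hv)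
    refine Poly.ite (Poly.decide_lt (Poly.length ha) (Poly.length hw)) ?_ ?_
    · exact Poly.cons (NPC.Poly.const false) (Poly.append hy (Poly.append hw
        (NPC.Poly.map (F := fun _ _ => true) ha (NPC.Poly.const true))))
    · refine Poly.cons (NPC.Poly.const true) (Poly.ite (Poly.decide_bool
        (Poly.all (p := fun (_ : List Bool) b => b) ha (Poly.snd Poly.id)))
        (NPC.Poly.const _) (NPC.Poly.const _))
  set M : Alg := ⟨D, polyTime_of_poly_list hDp, 0⟩ with hM
  refine ⟨M, 3, fun w y => ?_⟩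
  set T : ℕ := 3 * (w.length + y.length + 1) with hT
  have key : ∀ (i k m : ℕ), k + i = w.length → i + 1 ≤ m →
      runT M A (pairBits w y) T m (((List.range k).map fun i => ws y w i).map A) =
        some (hitV A (pairBits w y)) := by
    intro i
    induction i with
    | zero =>
      intro k m hk hm
      obtain ⟨m', rfl⟩ : ∃ m', m = m' + 1 := ⟨m - 1, by omega⟩
      have hk' : k = w.length := by omega
      have e1 : M.D (pairBits (pairBits w y) (((List.range k).map fun i => ws y w i).map A)) =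
          true :: hitV A (pairBits w y) := by
        show D _ = _
        simp only [hD, unpair_pairBits]
        rw [if_neg (by simp [hk'])]
        unfold hitV
        rw [hitQ_eq, hk']
      rw [runT, e1]
    | succ i ih =>
      intro k m hk hm
      obtain ⟨m', rfl⟩ : ∃ m', m = m' + 1 := ⟨m - 1, by omega⟩
      have e1 : M.D (pairBits (pairBits w y) (((List.range k).map fun i => ws y w i).map A)) =
          false :: ws y w k := by
        show D _ = _
        simp only [hD, unpair_pairBits]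
        rw [if_pos (by simp; omega)]
        unfold ws
        congr 3
        rw [List.map_const']
        simp
      have e2 : (ws y w k).length ≤ T := by
        rw [length_ws, hT]
        omega
      rw [runT, e1]
      simp only [if_pos e2]
      have e3 : ((List.range k).map fun i => ws y w i).map A ++ [A (ws y w k)] =
          ((List.range (k + 1)).map fun i => ws y w i).map A := by
        rw [List.range_succ, List.map_append, List.map_append]
        rfl
      rw [e3]
      exact ih (k + 1) m' (by omega) (by omega)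
  exact key w.length 0 T (by omega) (by rw [hT]; omega)

/-- the parameters are good for `A` -/
def EasyQ (r : ℕ) (z : Alg × ℕ) : Set Oracle :=
  {A | ∃ h : ℕ → List Bool, ∀ y : List Bool, (h y.length).length ≤ tq r z.2 y.length ∧
    (¬ Sat (hitV A) y.length y ↔ ∃ g : List Bool, g.length ≤ tq r z.2 y.length ∧
      outT z.1 A (pairBits g (inst (h y.length) y.length y)) (tq r z.2 y.length) = some [true])}

theorem evE_of_easyQ {r : ℕ} {z : Alg × ℕ} {A : Oracle} (hA : A ∈ EasyQ r z) {n σ R N : ℕ}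
    (hm : 2 ^ (n + 2 * n + 1) ≤ N) (hN : 2 ^ (tq r z.2 n + 1) ≤ N) :
    EvE z.1 (tq r z.2 n) n n σ R N (pre N A) := by
  classical
  obtain ⟨h, hh⟩ := hA
  set T : ℕ := tq r z.2 n with hTd
  have hagree : ∀ q : List Bool, q.length ≤ T → orc N (pre N A) q = A q := by
    intro q hq
    apply orc_pre
    have h1 := idx_lt q
    have h2 : 2 ^ (q.length + 1) ≤ 2 ^ (T + 1) :=
      Nat.pow_le_pow_right (by norm_num) (by omega)
    omega
  have hh0 := hh (List.replicate n false)
  rw [List.length_replicate] at hh0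
  refine ⟨(h n).length, hh0.1, h n, rfl, fun k => ?_⟩
  have hk := hh (inp n σ R k)
  rw [Pool.Agent.H620R2.Gauge.length_inp] at hk
  rw [hit_iff_sat (by
    rw [Pool.Agent.H620R2.Gauge.length_inp]
    exact hm), hk.2]
  unfold acc
  refine decide_eq_true_iff.trans ?_
  refine exists_congr fun g => and_congr_right fun _ => ?_
  unfold outT
  rw [runT_congr z.1 _ T hagree]

/-- an estimate -/
theorem est {δ : ℝ} {T n : ℕ} (h1 : 64 * (64 * T + n + 64 + 1) ≤ 2 ^ (n / 2))
    (hn : 24 ≤ n) (hδn : (1 / 2 : ℝ) ^ n ≤ δ) {F : ℝ} (hF : F ≤ 2 ^ (((n : ℝ) + 2) / 8)) :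
    2 ^ (T + 1) * (2 * (2 / 3 : ℝ) ^ 2 ^ (n - n / 2 - 4)) * 2 ^ F ≤ δ := by
  set U : ℕ := 2 ^ (n / 2) with hU
  have hσ : U ≤ 16 * 2 ^ (n - n / 2 - 4) := by
    have : (16 : ℕ) = 2 ^ 4 := by norm_num
    rw [hU, this, ← pow_add]
    exact Nat.pow_le_pow_right (by norm_num) (by omega)
  have hF2 : F ≤ U / 256 := by
    refine hF.trans ?_
    have h2 : (((n : ℝ) + 2) / 8) ≤ ((n / 2 : ℕ) : ℝ) - 8 := by
      have h3 : n ≤ 2 * (n / 2) + 1 := by omega
      have h3r : (n : ℝ) ≤ 2 * ((n / 2 : ℕ) : ℝ) + 1 := by exact_mod_cast h3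
      have h4 : (24 : ℝ) ≤ n := by exact_mod_cast hn
      linarith
    calc (2 : ℝ) ^ (((n : ℝ) + 2) / 8) ≤ 2 ^ (((n / 2 : ℕ) : ℝ) - 8) :=
          Real.rpow_le_rpow_of_exponent_le (by norm_num) h2
      _ = U / 256 := by
          rw [Real.rpow_sub (by norm_num), Real.rpow_natCast, hU]
          push_cast
          norm_num
  have hUr : (64 : ℝ) * (64 * T + n + 64 + 1) ≤ U := by exact_mod_cast h1
  have hσr : (U : ℝ) ≤ 16 * (2 ^ (n - n / 2 - 4) : ℕ) := by exact_mod_cast hσ
  set σ : ℕ := 2 ^ (n - n / 2 - 4) with hσd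
  have h2 : (0 : ℝ) < 2 := by norm_num
  have hTn : (0 : ℝ) ≤ T := Nat.cast_nonneg T
  have hnn : (0 : ℝ) ≤ n := Nat.cast_nonneg n
  calc (2 : ℝ) ^ (T + 1) * (2 * (2 / 3 : ℝ) ^ σ) * 2 ^ F
      ≤ 2 ^ (T + 1) * (2 * 2 ^ (-((σ : ℝ) / 2))) * 2 ^ F := by
        gcongr
        exact V69_half σ
    _ = 2 ^ (((T : ℝ) + 1) + (1 + (-((σ : ℝ) / 2))) + F) := by
        rw [Real.rpow_add h2, Real.rpow_add h2 _ (1 + (-((σ : ℝ) / 2))), Real.rpow_add h2 1,
          Real.rpow_one]
        congr 2
        rw [← Real.rpow_natCast]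
        push_cast
        rfl
    _ ≤ 2 ^ (-(n : ℝ)) := by
        apply Real.rpow_le_rpow_of_exponent_le (by norm_num)
        linarith
    _ = (1 / 2 : ℝ) ^ n := by
        rw [Real.rpow_neg h2.le, Real.rpow_natCast, one_div, inv_pow]
    _ ≤ δ := hδn

/-- the gauge is infinitely often small, for the exponent `r` -/
def condQ (r : ℕ) (f : ℕ → ℝ) : Prop :=
  ∀ ε : ℝ, 0 < ε → ∃ᶠ N : ℕ in atTop, f N ≤ 2 ^ (ε * (Real.logb 2 N) ^ (1 / (r : ℝ)))

theorem null_pow {r : ℕ} (hr : 1 ≤ r) {f : ℕ → ℝ} (hf : condQ r f)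
    (O : Set Oracle) (hO : ∀ A ∈ O, CoPow r A) : Null f O := by
  refine (null_iUnion (f := f) (EasyQ r) fun z => ?_).mono fun A hA => ?_
  · intro δ hδ
    set c : ℕ := z.2 with hc
    set c' : ℕ := c + 3 with hc'
    set P : Polynomial ℕ := 64 * (Polynomial.C c * (Polynomial.X + 1) ^ r) + Polynomial.X + 64
      with hP
    have hPe : ∀ n, P.eval n = 64 * tq r c n + n + 64 := by intro n; simp [hP, tq]
    have hpow : Tendsto (fun n : ℕ => (1 / 2 : ℝ) ^ n) atTop (nhds 0) :=
      tendsto_pow_atTop_nhds_zero_of_lt_one (by norm_num) (by norm_num)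
    obtain ⟨n0, hn0⟩ := eventually_atTop.1 (((V69_ev P 1).and (eventually_ge_atTop 24)).and
      (hpow.eventually (eventually_le_nhds hδ)))
    set ε : ℝ := 1 / (8 * ((c' : ℝ) + 1)) with hε
    have hε0 : 0 < ε := by positivity
    obtain ⟨N, hfN, hNbig⟩ := ((hf ε hε0).and_eventually
      (eventually_ge_atTop (2 ^ (tq r c' n0 + 1)))).exists
    set L : ℕ := Nat.log 2 N with hL
    have hN0 : N ≠ 0 := by
      have : 0 < 2 ^ (tq r c' n0 + 1) := by positivity
      omega
    have hLn0 : tq r c' n0 + 1 ≤ L := (Nat.le_log_iff_pow_le (by norm_num) hN0).2 hNbig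
    have htn : ∀ n, n + 1 ≤ tq r c' n := by
      intro n
      unfold tq
      have h1 : n + 1 ≤ (n + 1) ^ r := Nat.le_self_pow (by omega) _
      have h2 : 1 ≤ c' := by omega
      nlinarith
    set n : ℕ := Nat.findGreatest (fun n => tq r c' n + 1 ≤ L) L with hn
    have hnn0 : n0 ≤ n := Nat.le_findGreatest (P := fun n => tq r c' n + 1 ≤ L)
      (by have := htn n0; omega) hLn0
    have hn1 : tq r c' n + 1 ≤ L := Nat.findGreatest_spec (P := fun n => tq r c' n + 1 ≤ L)
      (m := n0) (by have := htn n0; omega) hLn0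
    have hn2 : L < tq r c' (n + 1) + 1 := by
      by_contra hcon
      push Not at hcon
      have h1 : n + 1 ≤ n := Nat.le_findGreatest (P := fun n => tq r c' n + 1 ≤ L)
        (by have := htn (n + 1); omega) hcon
      omega
    obtain ⟨⟨⟨a1, -, -, -⟩, a2⟩, a3⟩ := hn0 n hnn0
    rw [hPe] at a1
    have hNL : 2 ^ L ≤ N := Nat.pow_log_le_self 2 hN0
    have hN1 : 2 ^ (tq r c n + 1) ≤ N := by
      refine le_trans (Nat.pow_le_pow_right (by norm_num) ?_) hNL
      have h1 : tq r c n ≤ tq r c' n := Nat.mul_le_mul_right _ (by omega)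
      omega
    have hN2 : 2 ^ (n + 2 * n + 1) ≤ N := by
      refine le_trans (Nat.pow_le_pow_right (by norm_num) ?_) hNL
      have h1 : 3 * (n + 1) ≤ tq r c' n := by
        unfold tq
        have h2 : n + 1 ≤ (n + 1) ^ r := Nat.le_self_pow (by omega) _
        have h3 : 3 ≤ c' := by omega
        exact Nat.mul_le_mul h3 h2
      omega
    refine cover_of_event (EvE z.1 (tq r c n) n n (2 ^ (n - n / 2 - 4)) (2 ^ (n / 2)) N)
      (EasyQ r z) (fun A hA => evE_of_easyQ hA hN2 hN1) f δ ?_
    have hhalf : 2 * tq r c n ≤ 2 ^ (n / 2) := by omega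
    have hev := evE_bound z.1 (T := tq r c n) (n := n) (m := n) (σ := 2 ^ (n - n / 2 - 4))
      (R := 2 ^ (n / 2)) (N := N) (by omega) Nat.one_le_two_pow hhalf
      (hhalf.trans (Nat.pow_le_pow_right (by norm_num) (Nat.div_le_self _ _))) (by
        have : (16 : ℕ) = 2 ^ 4 := by norm_num
        rw [this, ← pow_add, ← pow_add]
        exact Nat.pow_le_pow_right (by norm_num) (by omega)) hN2
    refine (mul_le_mul_of_nonneg_right hev (by positivity)).trans ?_
    refine est a1 a2 a3 (hfN.trans ?_)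
    apply Real.rpow_le_rpow_of_exponent_le (by norm_num)
    -- the root of the logarithm
    have hr0 : (0 : ℝ) < r := by exact_mod_cast hr
    have hNr : (0 : ℝ) < N := by exact_mod_cast Nat.pos_of_ne_zero hN0
    have hlog1 : Real.logb 2 N ≤ (((c' + 1) * (n + 2)) ^ r : ℕ) := by
      have h1 : Real.logb 2 N < (L : ℝ) + 1 := by
        rw [Real.logb_lt_iff_lt_rpow (by norm_num) hNr]
        have h2 : ((L : ℝ) + 1) = ((L + 1 : ℕ) : ℝ) := by push_cast; ring
        rw [h2, Real.rpow_natCast]
        exact_mod_cast Nat.lt_pow_succ_log_self (by norm_num) N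
      have h2 : L + 1 ≤ ((c' + 1) * (n + 2)) ^ r := by
        have h3 : tq r c' (n + 1) = c' * (n + 2) ^ r := rfl
        rw [h3] at hn2
        have h4 : c' + 1 ≤ (c' + 1) ^ r := Nat.le_self_pow (by omega) _
        have h5 : 1 ≤ (n + 2) ^ r := Nat.one_le_pow _ _ (by omega)
        rw [mul_pow]
        calc L + 1 ≤ c' * (n + 2) ^ r + 1 := by omega
          _ ≤ (c' + 1) * (n + 2) ^ r := by nlinarith
          _ ≤ (c' + 1) ^ r * (n + 2) ^ r := Nat.mul_le_mul_right _ h4
      have h3 : ((L : ℝ) + 1) ≤ (((c' + 1) * (n + 2)) ^ r : ℕ) := by exact_mod_cast h2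
      linarith
    have hlog0 : 0 ≤ Real.logb 2 N := Real.logb_nonneg (by norm_num)
      (by exact_mod_cast Nat.pos_of_ne_zero hN0)
    have hroot : (Real.logb 2 N) ^ (1 / (r : ℝ)) ≤ ((c' : ℝ) + 1) * ((n : ℝ) + 2) := by
      calc (Real.logb 2 N) ^ (1 / (r : ℝ)) ≤ ((((c' + 1) * (n + 2)) ^ r : ℕ) : ℝ) ^ (1 / (r : ℝ)) :=
            Real.rpow_le_rpow hlog0 hlog1 (by positivity)
        _ = ((c' : ℝ) + 1) * ((n : ℝ) + 2) := by
            push_cast
            rw [← Real.rpow_natCast, ← Real.rpow_mul (by positivity), mul_one_div,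
              div_self hr0.ne', Real.rpow_one]
    calc ε * (Real.logb 2 N) ^ (1 / (r : ℝ)) ≤ ε * (((c' : ℝ) + 1) * ((n : ℝ) + 2)) :=
          mul_le_mul_of_nonneg_left hroot hε0.le
      _ = ((n : ℝ) + 2) / 8 := by
          rw [hε]
          field_simp
  · obtain ⟨M, c, h, hh⟩ := hO A hA (hitV A) (isLin_hitV A)
    exact Set.mem_iUnion.2 ⟨(M, c), h, hh⟩

end Pool.Agent.H274R3.Pow
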